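import Pool.Agent.H44.KR.Small

/-!
# Kernels of canonical maps: the determining positions of a shape
-/

set_option autoImplicit false
set_option linter.unusedVariables false

namespace Pool.Agent.H29.KR

open Pool.Agent.H68.BP Pool.Agent.H58.SF Pool.Agent.H53.NR Pool.Agent.H53.GM Pool.Agent.H44.KR
open Pool.Agent.H57.LCI (LocalCompletions Pre Realizes)
open Pool.Agent.H57.AR (tp ty)
open Pool.Agent.H57.EQ (Cx)
open Function
open Classical

/-- there are infinitely many elements of each type -/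
theorem many {V : Type} {ρ : Sig} {𝔹 : Str ρ V} (hB : HB 𝔹) {s : Fin ρ.m → Prop}
    (hs : s ∈ Rlz 𝔹) : {v | ty 𝔹 v = s}.Infinite := by
  intro hfin
  obtain ⟨x₀, hx₀⟩ := hs
  obtain ⟨x', h1, -, h3⟩ := hB.amg Unit ∅ (fun _ => x₀) (fun _ => x₀) hfin.toFinset
    ⟨fun a ha => absurd ha (Set.notMem_empty a), fun l z hz =>
      absurd (hz ⟨0, hB.ar l⟩) (Set.notMem_empty _)⟩
  have h4 : ty 𝔹 (x' ()) = s := by
    rw [← hx₀]
    funext l
    exact congrFun (congrFun (congrArg Prod.snd h1) l) (fun _ => ())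
  obtain ⟨a, ha, -⟩ := h3 () (hfin.mem_toFinset.2 h4)
  exact absurd ha (Set.notMem_empty a)

/-- transitivity of equality for the values at three blocks -/
theorem trans3 {V : Type} {σ ρ : Sig} {𝔸 : Str σ V} {𝔹 : Str ρ V} {L : ℕ}
    {Φ : Kd ρ L JJ → Yc ρ} (hB : BehC 𝔸 𝔹 L Φ) (r : Fin 3) (j : ℕ) (hj : j ≤ 2 * L + 2)
    (x : Fin 3 → Fin 6 → V) (hx : ∀ k, Sat r j (x k)) : ∃ rk : Pl L × V → ℕ,
      (∀ k k', RkI rk (Sum.elim (blk L r j (x k)) (blk L r j (x k')))) ∧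
      (∀ k, (Fv 𝔹 Φ rk (blk L r j (x k)) (blk L r j (x k))).1) ∧
      ((Fv 𝔹 Φ rk (blk L r j (x 0)) (blk L r j (x 1))).1 →
        (Fv 𝔹 Φ rk (blk L r j (x 1)) (blk L r j (x 2))).1 →
        (Fv 𝔹 Φ rk (blk L r j (x 0)) (blk L r j (x 2))).1) := by
  obtain ⟨rk, hrk⟩ := exists_rk (fun q : Fin 3 × Fin 6 => (plc L r j q.2, x q.1 q.2))
  obtain ⟨ψ, -, h2⟩ := hB r j hj (Fin 3 → V) (Fin 3) (fun c k => x k c) (fun g i => g i) rk
    (fun c c' h => funext fun k => hx k c c' h) hrk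
  have h3 : ∀ k k', (Fv 𝔹 Φ rk (blk L r j (x k)) (blk L r j (x k'))).1 ↔ ψ k = ψ k' := by
    intro k k'
    have h4 := h2 k k'
    exact iff_of_eq (congrArg Prod.fst h4).symm
  refine ⟨rk, fun k k' => ?_, fun k => (h3 k k).2 rfl, fun h h' => ?_⟩
  · rintro (c | c) (c' | c') h
    · exact hrk (k, c) (k, c') h
    · exact hrk (k, c) (k', c') h
    · exact hrk (k', c) (k, c') h
    · exact hrk (k', c) (k', c') h
  · exact (h3 0 2).2 (((h3 0 1).1 h).trans ((h3 1 2).1 h'))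

theorem pf_JEX : T_JEX := by
  intro V σ ρ 𝔸 𝔹 L Φ hHB hP hB hT r j hj s hs
  have hp := hP r j hj
  obtain ⟨e, he⟩ : ∃ e : ℕ → V, Injective e ∧ ∀ n, ty 𝔹 (e n) = s :=
    ⟨fun n => (many hHB hs).natEmbedding _ n, fun a b h =>
      ((many hHB hs).natEmbedding _).injective (Subtype.ext h),
      fun n => ((many hHB hs).natEmbedding _ n).2⟩
  obtain ⟨p, hpi⟩ := exists_injective_nat (Pl L)
  obtain ⟨v, hv⟩ : ∃ v : Fin 3 → Fin 6 → V, v = fun (k : Fin 3) (c : Fin 6) =>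
      e (3 * p (plc L r j c) + (k : ℕ)) :=
    ⟨_, rfl⟩
  have hvS : ∀ k c c', Ent r j c c' → v k c = v k c' := by
    intro k c c' h
    rw [hv]
    dsimp only
    rw [(hp.eq c c').2 h]
  have hvt : ∀ k c, ty 𝔹 (v k c) = s := by
    intro k c
    rw [hv]
    exact he.2 _
  have hvn : ∀ k k' c, k ≠ k' → v k c ≠ v k' c := by
    intro k k' c h h'
    rw [hv] at h'
    have h1 := he.1 h'
    exact h (Fin.ext (by omega))
  -- the blocks
  let b : Set (Fin 6) → Fin 3 → Fin 6 → V := fun A k c => if c ∈ A then v 0 c else v k c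
  have hbS : ∀ A k, (∀ c c', Ent r j c c' → (c ∈ A ↔ c' ∈ A)) → Sat r j (b A k) := by
    intro A k hA c c' h
    show (if c ∈ A then v 0 c else v k c) = if c' ∈ A then v 0 c' else v k c'
    by_cases h1 : c ∈ A
    · rw [if_pos h1, if_pos ((hA c c' h).1 h1), hvS 0 c c' h]
    · rw [if_neg h1, if_neg (fun h2 => h1 ((hA c c' h).2 h2)), hvS k c c' h]
  have hbt : ∀ A k c, ty 𝔹 (b A k c) = s := by
    intro A k c
    show ty 𝔹 (if c ∈ A then v 0 c else v k c) = s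
    by_cases h1 : c ∈ A
    · rw [if_pos h1, hvt]
    · rw [if_neg h1, hvt]
  have hbp : ∀ A k c, c ∈ A → b A k c = v 0 c := fun A k c h => if_pos h
  have hbn : ∀ A k c, c ∉ A → b A k c = v k c := fun A k c h => if_neg h
  let FF : Set (Fin 6) → Prop := fun A => ∃ x y rk, BlS 𝔹 r j s x ∧ BlS 𝔹 r j s y ∧
    RkI rk (Sum.elim (blk L r j x) (blk L r j y)) ∧ (∀ c, x c = y c ↔ c ∈ A) ∧
    (Fv 𝔹 Φ rk (blk L r j x) (blk L r j y)).1
  have hFF : ∀ A, FF A → ∀ x y rk, BlS 𝔹 r j s x → BlS 𝔹 r j s y →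
      RkI rk (Sum.elim (blk L r j x) (blk L r j y)) → (∀ c, x c = y c ↔ c ∈ A) →
      (Fv 𝔹 Φ rk (blk L r j x) (blk L r j y)).1 := by
    rintro A ⟨x', y', rk', h1, h2, h3, h4, h5⟩ x y rk hx hy hrk hA
    exact hT r j hj s x' y' x y rk' rk h1 h2 hx hy h3 hrk
      (fun c => (h4 c).trans (hA c).symm) h5
  have hthree : ∀ (x : Fin 3 → Fin 6 → V), (∀ k, BlS 𝔹 r j s (x k)) → ∀ A B C,
      (∀ c, x 0 c = x 1 c ↔ c ∈ A) → (∀ c, x 1 c = x 2 c ↔ c ∈ B) →
      (∀ c, x 0 c = x 2 c ↔ c ∈ C) → FF A → FF B → FF C := by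
    intro x hx A B C hA hB' hC h1 h2
    obtain ⟨rk, h3, -, h5⟩ := trans3 hB r j hj x fun k => (hx k).1
    exact ⟨x 0, x 2, rk, hx 0, hx 2, h3 0 2, hC,
      h5 (hFF A h1 _ _ rk (hx 0) (hx 1) (h3 0 1) hA)
        (hFF B h2 _ _ rk (hx 1) (hx 2) (h3 1 2) hB')⟩
  have hsat : ∀ A B : Set (Fin 6), (∀ c c', Ent r j c c' → (c ∈ A ↔ c' ∈ A)) →
      (∀ c c', Ent r j c c' → (c ∈ B ↔ c' ∈ B)) →
      ∀ c c', Ent r j c c' → (c ∈ A ∩ B ↔ c' ∈ A ∩ B) := fun A B hA hB' c c' h =>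
    and_congr (hA c c' h) (hB' c c' h)
  have huniv : FF Set.univ := by
    obtain ⟨rk, h3, h4, -⟩ := trans3 hB r j hj (fun _ => v 0) fun k => hvS 0
    exact ⟨v 0, v 0, rk, ⟨hvS 0, hvt 0⟩, ⟨hvS 0, hvt 0⟩, h3 0 0,
      fun c => iff_of_true rfl (Set.mem_univ c), h4 0⟩
  have hup : ∀ A B : Set (Fin 6), (∀ c c', Ent r j c c' → (c ∈ A ↔ c' ∈ A)) →
      (∀ c c', Ent r j c c' → (c ∈ B ↔ c' ∈ B)) → A ⊆ B → FF A → FF B := by
    intro A B hA hB' hAB h
    refine hthree ![v 0, b A 1, b B 2] ?_ A A B ?_ ?_ ?_ h h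
    · intro k
      fin_cases k
      · exact ⟨hvS 0, hvt 0⟩
      · exact ⟨hbS A 1 hA, hbt A 1⟩
      · exact ⟨hbS B 2 hB', hbt B 2⟩
    · intro c
      show v 0 c = b A 1 c ↔ c ∈ A
      by_cases h1 : c ∈ A
      · rw [hbp A 1 c h1]
        exact iff_of_true rfl h1
      · rw [hbn A 1 c h1]
        exact iff_of_false (hvn 0 1 c (by decide)) h1
    · intro c
      show b A 1 c = b B 2 c ↔ c ∈ A
      by_cases h1 : c ∈ A
      · rw [hbp A 1 c h1, hbp B 2 c (hAB h1)]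
        exact iff_of_true rfl h1
      · by_cases h2 : c ∈ B
        · rw [hbn A 1 c h1, hbp B 2 c h2]
          exact iff_of_false (hvn 1 0 c (by decide)) h1
        · rw [hbn A 1 c h1, hbn B 2 c h2]
          exact iff_of_false (hvn 1 2 c (by decide)) h1
    · intro c
      show v 0 c = b B 2 c ↔ c ∈ B
      by_cases h1 : c ∈ B
      · rw [hbp B 2 c h1]
        exact iff_of_true rfl h1
      · rw [hbn B 2 c h1]
        exact iff_of_false (hvn 0 2 c (by decide)) h1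
  have hint : ∀ A B : Set (Fin 6), (∀ c c', Ent r j c c' → (c ∈ A ↔ c' ∈ A)) →
      (∀ c c', Ent r j c c' → (c ∈ B ↔ c' ∈ B)) → FF A → FF B → FF (A ∩ B) := by
    intro A B hA hB' h h'
    refine hthree ![b A 1, v 0, b B 2] ?_ A B (A ∩ B) ?_ ?_ ?_ h h'
    · intro k
      fin_cases k
      · exact ⟨hbS A 1 hA, hbt A 1⟩
      · exact ⟨hvS 0, hvt 0⟩
      · exact ⟨hbS B 2 hB', hbt B 2⟩
    · intro c
      show b A 1 c = v 0 c ↔ c ∈ A
      by_cases h1 : c ∈ A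
      · rw [hbp A 1 c h1]
        exact iff_of_true rfl h1
      · rw [hbn A 1 c h1]
        exact iff_of_false (hvn 1 0 c (by decide)) h1
    · intro c
      show v 0 c = b B 2 c ↔ c ∈ B
      by_cases h1 : c ∈ B
      · rw [hbp B 2 c h1]
        exact iff_of_true rfl h1
      · rw [hbn B 2 c h1]
        exact iff_of_false (hvn 0 2 c (by decide)) h1
    · intro c
      show b A 1 c = b B 2 c ↔ c ∈ A ∩ B
      by_cases h1 : c ∈ A
      · by_cases h2 : c ∈ B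
        · rw [hbp A 1 c h1, hbp B 2 c h2]
          exact iff_of_true rfl ⟨h1, h2⟩
        · rw [hbp A 1 c h1, hbn B 2 c h2]
          exact iff_of_false (hvn 0 2 c (by decide)) fun h3 => h2 h3.2
      · by_cases h2 : c ∈ B
        · rw [hbn A 1 c h1, hbp B 2 c h2]
          exact iff_of_false (hvn 1 0 c (by decide)) fun h3 => h1 h3.1
        · rw [hbn A 1 c h1, hbn B 2 c h2]
          exact iff_of_false (hvn 1 2 c (by decide)) fun h3 => h1 h3.1
  -- the smallest set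
  have hex : ∃ n, ∃ J : Set (Fin 6), (∀ c c', Ent r j c c' → (c ∈ J ↔ c' ∈ J)) ∧ FF J ∧
      J.ncard = n := ⟨_, Set.univ, fun c c' _ => iff_of_true trivial trivial, huniv, rfl⟩
  obtain ⟨J, hJ1, hJ2, hJ3⟩ := Nat.find_spec hex
  have hmin : ∀ B : Set (Fin 6), (∀ c c', Ent r j c c' → (c ∈ B ↔ c' ∈ B)) → FF B →
      J ⊆ B := by
    intro B hB1 hB2
    have h1 : Nat.find hex ≤ (J ∩ B).ncard :=
      Nat.find_min' hex ⟨J ∩ B, hsat J B hJ1 hB1, hint J B hJ1 hB1 hJ2 hB2, rfl⟩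
    rw [← hJ3] at h1
    have h2 := Set.eq_of_subset_of_ncard_le (Set.inter_subset_left (s := J) (t := B)) h1
      (Set.toFinite _)
    intro c hc
    rw [← h2] at hc
    exact hc.2
  refine ⟨J, hJ1, fun x y rk hx hy hrk => ?_⟩
  have hA : ∀ c c', Ent r j c c' → (c ∈ {c | x c = y c} ↔ c' ∈ {c | x c = y c}) := by
    intro c c' h
    show x c = y c ↔ x c' = y c'
    rw [hx.1 c c' h, hy.1 c c' h]
  constructor
  · intro h c hc
    exact hmin {c | x c = y c} hA ⟨x, y, rk, hx, hy, hrk, fun c => Iff.rfl, h⟩ hc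
  · intro h
    exact hFF {c | x c = y c} (hup J _ hJ1 hA (fun c hc => h c hc) hJ2) x y rk hx hy hrk
      fun c => Iff.rfl

end Pool.Agent.H29.KR
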