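import Pool.Agent.H44.KR.Targets

/-!
# Kernels of canonical maps: kinds of pairs of blocks of one shape
-/

set_option autoImplicit false
set_option linter.unusedVariables false

namespace Pool.Agent.H29.KR

open Pool.Agent.H68.BP Pool.Agent.H58.SF Pool.Agent.H53.NR Pool.Agent.H53.GM Pool.Agent.H44.KR
open Pool.Agent.H57.LCI (LocalCompletions Pre Realizes)
open Pool.Agent.H57.AR (tp ty)
open Pool.Agent.H57.EQ (Cx)
open Function
open Classical

/-- the position of an element of a pair of blocks -/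
def ps (i : JJ) : Fin 6 := Sum.elim id id i

/-- the side of an element of a pair of blocks -/
def sd (i : JJ) : Fin 2 := Sum.elim (fun _ => 0) (fun _ => 1) i

theorem el_eq {V : Type} {L : ℕ} (r : Fin 3) (j : ℕ) (x y : Fin 6 → V) (i : JJ) :
    Sum.elim (blk L r j x) (blk L r j y) i =
      (plc L r j (ps i), (![x (ps i), y (ps i)] : Fin 2 → V) (sd i)) := by
  rcases i with c | c <;> rfl

/-- equality of the kinds of two pairs of blocks -/
theorem kv_pair {V : Type} {ρ : Sig} {𝔹 : Str ρ V} {L : ℕ} {r : Fin 3} {j : ℕ}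
    (hp : Plf L r j) {x y x' y' : Fin 6 → V} (hx : Sat r j x) (hy : Sat r j y)
    (hx' : Sat r j x') (hy' : Sat r j y') (rk rk' : Pl L × V → ℕ)
    (ht : ∀ c, tp 𝔹 (![x c, y c] : Fin 2 → V) = tp 𝔹 (![x' c, y' c] : Fin 2 → V))
    (h1 : ∀ c, rk (plc L r j c, x c) < rk (plc L r j c, y c) ↔
      rk' (plc L r j c, x' c) < rk' (plc L r j c, y' c))
    (h2 : ∀ c, rk (plc L r j c, y c) < rk (plc L r j c, x c) ↔
      rk' (plc L r j c, y' c) < rk' (plc L r j c, x' c)) :
    kv 𝔹 rk (Sum.elim (blk L r j x) (blk L r j y)) =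
      kv 𝔹 rk' (Sum.elim (blk L r j x') (blk L r j y')) := by
  have hs : ∀ c c', Ent r j c c' → (![x c, y c] : Fin 2 → V) = ![x c', y c'] := by
    intro c c' h
    rw [hx c c' h, hy c c' h]
  have hs' : ∀ c c', Ent r j c c' → (![x' c, y' c] : Fin 2 → V) = ![x' c', y' c'] := by
    intro c c' h
    rw [hx' c c' h, hy' c c' h]
  have hte : ∀ c a b, (![x c, y c] : Fin 2 → V) a = (![x c, y c] : Fin 2 → V) b ↔
      (![x' c, y' c] : Fin 2 → V) a = (![x' c, y' c] : Fin 2 → V) b := by
    intro c a b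
    have h := congrFun (congrFun (congrArg Prod.fst (ht c)) a) b
    exact iff_of_eq h
  have hts : ∀ c (l : Fin ρ.m) (z : Fin (ρ.ar l) → Fin 2),
      𝔹 l (fun i => (![x c, y c] : Fin 2 → V) (z i)) ↔
      𝔹 l (fun i => (![x' c, y' c] : Fin 2 → V) (z i)) := by
    intro c l z
    have h := congrFun (congrFun (congrArg Prod.snd (ht c)) l) z
    exact iff_of_eq h
  refine Prod.ext ?_ (Prod.ext ?_ (Prod.ext ?_ ?_))
  · funext i
    show (Sum.elim (blk L r j x) (blk L r j y) i).1 = (Sum.elim (blk L r j x') (blk L r j y') i).1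
    rw [el_eq, el_eq]
  · funext i i'
    show (Sum.elim (blk L r j x) (blk L r j y) i = Sum.elim (blk L r j x) (blk L r j y) i') =
      (Sum.elim (blk L r j x') (blk L r j y') i = Sum.elim (blk L r j x') (blk L r j y') i')
    rw [el_eq, el_eq, el_eq, el_eq]
    refine propext ⟨fun h => ?_, fun h => ?_⟩
    · have he : Ent r j (ps i) (ps i') := (hp.eq _ _).1 (congrArg Prod.fst h)
      have h3 := congrArg Prod.snd h
      refine Prod.ext ((hp.eq _ _).2 he) ?_
      show (![x' (ps i), y' (ps i)] : Fin 2 → V) (sd i) =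
        (![x' (ps i'), y' (ps i')] : Fin 2 → V) (sd i')
      rw [← hs' _ _ he]
      refine (hte _ _ _).1 ?_
      rw [← hs _ _ he] at h3
      exact h3
    · have he : Ent r j (ps i) (ps i') := (hp.eq _ _).1 (congrArg Prod.fst h)
      have h3 := congrArg Prod.snd h
      refine Prod.ext ((hp.eq _ _).2 he) ?_
      show (![x (ps i), y (ps i)] : Fin 2 → V) (sd i) =
        (![x (ps i'), y (ps i')] : Fin 2 → V) (sd i')
      rw [← hs _ _ he]
      refine (hte _ _ _).2 ?_
      rw [← hs' _ _ he] at h3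
      exact h3
  · funext i i'
    show ((Sum.elim (blk L r j x) (blk L r j y) i).1 = (Sum.elim (blk L r j x) (blk L r j y) i').1
        ∧ rk (Sum.elim (blk L r j x) (blk L r j y) i) <
          rk (Sum.elim (blk L r j x) (blk L r j y) i')) =
      ((Sum.elim (blk L r j x') (blk L r j y') i).1 =
        (Sum.elim (blk L r j x') (blk L r j y') i').1
        ∧ rk' (Sum.elim (blk L r j x') (blk L r j y') i) <
          rk' (Sum.elim (blk L r j x') (blk L r j y') i'))
    rw [el_eq, el_eq, el_eq, el_eq]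
    refine propext (and_congr_right ?_)
    intro hpl
    have hpl' : plc L r j (ps i) = plc L r j (ps i') := hpl
    have he : Ent r j (ps i) (ps i') := (hp.eq _ _).1 hpl'
    rw [← hpl', ← hs _ _ he, ← hs' _ _ he]
    have hc : ∀ a b : Fin 2,
        rk (plc L r j (ps i), (![x (ps i), y (ps i)] : Fin 2 → V) a) <
          rk (plc L r j (ps i), (![x (ps i), y (ps i)] : Fin 2 → V) b) ↔
        rk' (plc L r j (ps i), (![x' (ps i), y' (ps i)] : Fin 2 → V) a) <
          rk' (plc L r j (ps i), (![x' (ps i), y' (ps i)] : Fin 2 → V) b) := by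
      intro a b
      fin_cases a <;> fin_cases b
      · exact ⟨fun h => absurd h (lt_irrefl _), fun h => absurd h (lt_irrefl _)⟩
      · exact h1 _
      · exact h2 _
      · exact ⟨fun h => absurd h (lt_irrefl _), fun h => absurd h (lt_irrefl _)⟩
    exact hc _ _
  · funext l z
    show ((∃ Z, ∀ i, inSh Z (Sum.elim (blk L r j x) (blk L r j y) (z i)).1) ∧
        𝔹 l (fun i => (Sum.elim (blk L r j x) (blk L r j y) (z i)).2)) =
      ((∃ Z, ∀ i, inSh Z (Sum.elim (blk L r j x') (blk L r j y') (z i)).1) ∧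
        𝔹 l (fun i => (Sum.elim (blk L r j x') (blk L r j y') (z i)).2))
    have hf : ∀ i, (Sum.elim (blk L r j x) (blk L r j y) (z i)).1 =
        (Sum.elim (blk L r j x') (blk L r j y') (z i)).1 := by
      intro i
      rw [el_eq, el_eq]
    have hf' : (∃ Z, ∀ i, inSh Z (Sum.elim (blk L r j x) (blk L r j y) (z i)).1) =
        (∃ Z, ∀ i, inSh Z (Sum.elim (blk L r j x') (blk L r j y') (z i)).1) := by
      simp only [hf]
    rw [hf']
    refine propext (and_congr_right ?_)
    rintro ⟨Z, hZ⟩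
    have hc : ∃ c, ∀ i, Ent r j c (ps (z i)) := by
      rcases Nat.eq_zero_or_pos (ρ.ar l) with h0 | h0
      · exact ⟨0, fun i => absurd i.2 (by omega)⟩
      · refine ⟨ps (z ⟨0, h0⟩), fun i => ?_⟩
        have h3 := hZ i
        have h4 := hZ ⟨0, h0⟩
        rw [el_eq] at h3 h4
        exact hp.sh Z _ _ h4 h3
    obtain ⟨c, hc⟩ := hc
    have h5 : (fun i => (Sum.elim (blk L r j x) (blk L r j y) (z i)).2) =
        fun i => (![x c, y c] : Fin 2 → V) (sd (z i)) := by
      funext i
      rw [el_eq, hs _ _ (hc i)]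
    have h6 : (fun i => (Sum.elim (blk L r j x') (blk L r j y') (z i)).2) =
        fun i => (![x' c, y' c] : Fin 2 → V) (sd (z i)) := by
      funext i
      rw [el_eq, hs' _ _ (hc i)]
    rw [h5, h6]
    exact hts c l fun i => sd (z i)

end Pool.Agent.H29.KR
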