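import Pool.Agent.H29.KR.Pair

/-!
# Kernels of canonical maps: equality of values at two blocks of one shape
-/

set_option autoImplicit false
set_option linter.unusedVariables false

namespace Pool.Agent.H29.KR

open Pool.Agent.H68.BP Pool.Agent.H58.SF Pool.Agent.H53.NR Pool.Agent.H53.GM Pool.Agent.H44.KR
open Pool.Agent.H57.LCI (LocalCompletions Pre Realizes)
open Pool.Agent.H57.AR (tp ty)
open Pool.Agent.H57.EQ (Cx)
open Function
open Classical

theorem num0 (m : ℕ) (hm : 1 ≤ m) (q : Prop) : ∃ N : ℕ → ℕ,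
    (∀ i, i < 2 * m + 2 → N i ≤ 10 * m + 100) ∧
    (∀ i i', i < 2 * m + 2 → i' < 2 * m + 2 → N i = N i' → i = i') ∧
    (∀ i, i + 1 < 2 * m + 2 → i % 2 = 0 → N i < N (i + 1)) ∧
    (∀ i, i + 1 < 2 * m + 2 → i % 2 = 1 → N (i + 1) < N i) ∧
    (N 0 < N (2 * m + 1) ↔ q) := by
  by_cases hq : q
  · refine ⟨fun i => if i = 0 then 2 * m + 6 else if i = 2 * m + 1 then 2 * m + 7 else
      if i % 2 = 0 then i else 2 * m + 20 + i, ?_, ?_, ?_, ?_, ?_⟩
    · intro i hi
      dsimp only
      split_ifs <;> first | contradiction | omega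
    · intro i i' hi hi'
      dsimp only
      split_ifs <;> first | contradiction | omega
    · intro i hi he
      dsimp only
      split_ifs <;> first | contradiction | omega
    · intro i hi he
      dsimp only
      split_ifs <;> first | contradiction | omega
    · refine iff_of_true ?_ hq
      dsimp only
      split_ifs <;> first | contradiction | omega
  · refine ⟨fun i => if i = 0 then 2 * m + 7 else if i = 2 * m + 1 then 2 * m + 6 else
      if i % 2 = 0 then i else 2 * m + 20 + i, ?_, ?_, ?_, ?_, ?_⟩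
    · intro i hi
      dsimp only
      split_ifs <;> first | contradiction | omega
    · intro i i' hi hi'
      dsimp only
      split_ifs <;> first | contradiction | omega
    · intro i hi he
      dsimp only
      split_ifs <;> first | contradiction | omega
    · intro i hi he
      dsimp only
      split_ifs <;> first | contradiction | omega
    · refine iff_of_false ?_ hq
      dsimp only
      split_ifs <;> first | contradiction | omega

theorem num1 (m : ℕ) (hm : 1 ≤ m) (o o' : Prop) : ∃ N : ℕ → ℕ,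
    (∀ i i', i < 2 * m + 2 → i' < 2 * m + 2 → N i = N i' → i = i') ∧
    (∀ i, i + 1 < 2 * m + 2 → i % 2 = 0 →
      (N i < N (i + 1) ↔ o) ∧ (N (i + 1) < N i ↔ ¬ o)) ∧
    (∀ i, i + 1 < 2 * m + 2 → i % 2 = 1 →
      (N (i + 1) < N i ↔ o) ∧ (N i < N (i + 1) ↔ ¬ o)) ∧
    (N 0 < N (2 * m + 1) ↔ o') ∧ (N (2 * m + 1) < N 0 ↔ ¬ o') := by
  by_cases ho : o
  · obtain ⟨N, h0, h1, h2, h3, h4⟩ := num0 m hm o'
    refine ⟨N, h1, fun i hi he => ?_, fun i hi he => ?_, h4, ?_⟩
    · have h5 := h2 i hi he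
      exact ⟨iff_of_true h5 ho, iff_of_false (by omega) (not_not_intro ho)⟩
    · have h5 := h3 i hi he
      exact ⟨iff_of_true h5 ho, iff_of_false (by omega) (not_not_intro ho)⟩
    · rw [← h4]
      have h5 : N 0 ≠ N (2 * m + 1) := by
        intro h
        have := h1 0 (2 * m + 1) (by omega) (by omega) h
        omega
      omega
  · obtain ⟨N, h0, h1, h2, h3, h4⟩ := num0 m hm (¬ o')
    have h5 : N 0 ≠ N (2 * m + 1) := by
      intro h
      have := h1 0 (2 * m + 1) (by omega) (by omega) h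
      omega
    have h6 := h0 0 (by omega)
    have h7 := h0 (2 * m + 1) (by omega)
    have h8 : (N (2 * m + 1) < N 0 ↔ o') := by
      constructor
      · intro h
        by_contra h9
        have := h4.2 h9
        omega
      · intro h
        by_contra h9
        exact h4.1 (by omega) h
    refine ⟨fun i => 10 * m + 100 - N i, fun i i' hi hi' h => ?_, fun i hi he => ?_,
      fun i hi he => ?_, ?_, ?_⟩
    · have h9 := h0 i hi
      have h10 := h0 i' hi'
      exact h1 i i' hi hi' (by dsimp only at h; omega)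
    · have h9 := h2 i hi he
      have h10 := h0 i (by omega)
      have h11 := h0 (i + 1) hi
      exact ⟨iff_of_false (by dsimp only; omega) ho, iff_of_true (by dsimp only; omega) ho⟩
    · have h9 := h3 i hi he
      have h10 := h0 i (by omega)
      have h11 := h0 (i + 1) hi
      exact ⟨iff_of_false (by dsimp only; omega) ho, iff_of_true (by dsimp only; omega) ho⟩
    · rw [← h8]
      dsimp only
      omega
    · rw [← h8]
      dsimp only
      omega

/-- ranks on a cycle -/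
theorem rk1 {V : Type} (m : ℕ) (hm : 1 ≤ m) (f : Fin (2 * m + 2) → V) (hf : Injective f)
    (o o' : Prop) : ∃ T : V → ℕ,
    (∀ i i', T (f i) = T (f i') → f i = f i') ∧
    (∀ i i' : Fin (2 * m + 2), (i' : ℕ) = i + 1 →
      ((i : ℕ) % 2 = 0 → (T (f i) < T (f i') ↔ o) ∧ (T (f i') < T (f i) ↔ ¬ o)) ∧
      ((i : ℕ) % 2 = 1 → (T (f i') < T (f i) ↔ o) ∧ (T (f i) < T (f i') ↔ ¬ o))) ∧
    (T (f 0) < T (f (Fin.last (2 * m + 1))) ↔ o') ∧
    (T (f (Fin.last (2 * m + 1))) < T (f 0) ↔ ¬ o') := by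
  obtain ⟨N, h1, h2, h3, h4, h5⟩ := num1 m hm o o'
  have hT : ∀ i : Fin (2 * m + 2), Function.extend f (fun i : Fin (2 * m + 2) => N i)
      (fun _ => 0) (f i) = N i := fun i => hf.extend_apply _ _ i
  refine ⟨Function.extend f (fun i : Fin (2 * m + 2) => N i) (fun _ => 0), ?_, ?_, ?_, ?_⟩
  · intro i i' h
    rw [hT, hT] at h
    exact congrArg f (Fin.ext (h1 i i' i.2 i'.2 h))
  · intro i i' h
    rw [hT, hT, h]
    have h6 : (i : ℕ) + 1 < 2 * m + 2 := h ▸ i'.2
    exact ⟨h2 i h6, h3 i h6⟩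
  · rw [hT, hT]
    exact h4
  · rw [hT, hT]
    exact h5

/-- ranks from ranks at the places -/
theorem glue {V : Type} {L : ℕ} (T : Pl L → V → ℕ) : ∃ rk : Pl L × V → ℕ,
    (∀ P v P' v', rk (P, v) = rk (P', v') → P = P' ∧ T P v = T P' v') ∧
    ∀ P v v', rk (P, v) < rk (P, v') ↔ T P v < T P v' := by
  obtain ⟨e, he⟩ := exists_injective_nat (Pl L)
  refine ⟨fun q => Nat.pair (e q.1) (T q.1 q.2), fun P v P' v' h => ?_, fun P v v' => ?_⟩
  · have h1 := Nat.pair_eq_pair.1 h
    exact ⟨he h1.1, h1.2⟩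
  · constructor
    · intro h
      by_contra h1
      rcases Nat.lt_or_ge (T P v') (T P v) with h2 | h2
      · exact absurd h (not_lt.2 (Nat.pair_lt_pair_right _ h2).le)
      · have h3 : T P v = T P v' := by omega
        dsimp only at h
        rw [h3] at h
        exact lt_irrefl _ h
    · intro h
      exact Nat.pair_lt_pair_right _ h

theorem pf_TAM : T_TAM := by
  rintro V σ ρ 𝔸 𝔹 L Φ hP hB ⟨m, hm, hcyc⟩ r j hj s x y x' y' rk rk' hx hy hx' hy' hrk hrk' hA hv
  have hp := hP r j hj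
  -- the cycles
  obtain ⟨F, hF⟩ : ∃ F : V → V → V → V → Fin (2 * m + 2) → V, ∀ a b a' b',
      (a = b → F a b a' b' = fun _ => a) ∧
      (a ≠ b → a' ≠ b' → ty 𝔹 b = ty 𝔹 a → ty 𝔹 a' = ty 𝔹 a → ty 𝔹 b' = ty 𝔹 a →
        Injective (F a b a' b') ∧
        (∀ i i' : Fin (2 * m + 2), (i' : ℕ) = i + 1 →
          ((i : ℕ) % 2 = 0 → tp 𝔹 (![F a b a' b' i, F a b a' b' i'] : Fin 2 → V) =
            tp 𝔹 (![a, b] : Fin 2 → V)) ∧
          ((i : ℕ) % 2 = 1 → tp 𝔹 (![F a b a' b' i', F a b a' b' i] : Fin 2 → V) =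
            tp 𝔹 (![a, b] : Fin 2 → V))) ∧
        tp 𝔹 (![F a b a' b' 0, F a b a' b' (Fin.last (2 * m + 1))] : Fin 2 → V) =
          tp 𝔹 (![a', b'] : Fin 2 → V)) := by
    have h1 : ∀ a b a' b' : V, ∃ f : Fin (2 * m + 2) → V, (a = b → f = fun _ => a) ∧
        (a ≠ b → a' ≠ b' → ty 𝔹 b = ty 𝔹 a → ty 𝔹 a' = ty 𝔹 a → ty 𝔹 b' = ty 𝔹 a →
        Injective f ∧
        (∀ i i' : Fin (2 * m + 2), (i' : ℕ) = i + 1 →
          ((i : ℕ) % 2 = 0 → tp 𝔹 (![f i, f i'] : Fin 2 → V) = tp 𝔹 (![a, b] : Fin 2 → V)) ∧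
          ((i : ℕ) % 2 = 1 → tp 𝔹 (![f i', f i] : Fin 2 → V) = tp 𝔹 (![a, b] : Fin 2 → V))) ∧
        tp 𝔹 (![f 0, f (Fin.last (2 * m + 1))] : Fin 2 → V) =
          tp 𝔹 (![a', b'] : Fin 2 → V)) := by
      intro a b a' b'
      by_cases h : a ≠ b ∧ a' ≠ b' ∧ ty 𝔹 b = ty 𝔹 a ∧ ty 𝔹 a' = ty 𝔹 a ∧ ty 𝔹 b' = ty 𝔹 a
      · obtain ⟨f, hf⟩ := hcyc ![a, b] ![a', b'] h.1 h.2.1 h.2.2.1 h.2.2.2.1 h.2.2.2.2
        exact ⟨f, fun h2 => absurd h2 h.1, fun _ _ _ _ _ => hf⟩
      · refine ⟨fun _ => a, fun _ => rfl, fun h1 h2 h3 h4 h5 => ?_⟩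
        exact absurd ⟨h1, h2, h3, h4, h5⟩ h
    choose F hF using h1
    exact ⟨F, hF⟩
  obtain ⟨f, hf⟩ : ∃ f : Fin 6 → Fin (2 * m + 2) → V, f = fun c => F (x c) (y c) (x' c) (y' c) :=
    ⟨_, rfl⟩
  have hfE : ∀ c c', Ent r j c c' → f c = f c' := by
    intro c c' h
    rw [hf]
    dsimp only
    rw [hx.1 c c' h, hy.1 c c' h, hx'.1 c c' h, hy'.1 c c' h]
  have hf1 : ∀ c, x c = y c → ∀ i, f c i = x c := by
    intro c h i
    rw [hf]
    dsimp only
    rw [(hF _ _ _ _).1 h]
  have hf2 : ∀ c, x c ≠ y c → Injective (f c) ∧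
        (∀ i i' : Fin (2 * m + 2), (i' : ℕ) = i + 1 →
          ((i : ℕ) % 2 = 0 → tp 𝔹 (![f c i, f c i'] : Fin 2 → V) =
            tp 𝔹 (![x c, y c] : Fin 2 → V)) ∧
          ((i : ℕ) % 2 = 1 → tp 𝔹 (![f c i', f c i] : Fin 2 → V) =
            tp 𝔹 (![x c, y c] : Fin 2 → V))) ∧
        tp 𝔹 (![f c 0, f c (Fin.last (2 * m + 1))] : Fin 2 → V) =
          tp 𝔹 (![x' c, y' c] : Fin 2 → V) := by
    intro c h
    rw [hf]
    exact (hF (x c) (y c) (x' c) (y' c)).2 h (fun h' => h ((hA c).2 h'))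
      ((hy.2 c).trans (hx.2 c).symm) ((hx'.2 c).trans (hx.2 c).symm)
      ((hy'.2 c).trans (hx.2 c).symm)
  -- the ranks at the places
  have hT : ∀ c, ∃ T : V → ℕ, (∀ i i', T (f c i) = T (f c i') → f c i = f c i') ∧
      (x c ≠ y c →
        (∀ i i' : Fin (2 * m + 2), (i' : ℕ) = i + 1 →
        ((i : ℕ) % 2 = 0 → (T (f c i) < T (f c i') ↔
            rk (plc L r j c, x c) < rk (plc L r j c, y c)) ∧
          (T (f c i') < T (f c i) ↔ ¬ rk (plc L r j c, x c) < rk (plc L r j c, y c))) ∧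
        ((i : ℕ) % 2 = 1 → (T (f c i') < T (f c i) ↔
            rk (plc L r j c, x c) < rk (plc L r j c, y c)) ∧
          (T (f c i) < T (f c i') ↔ ¬ rk (plc L r j c, x c) < rk (plc L r j c, y c)))) ∧
        (T (f c 0) < T (f c (Fin.last (2 * m + 1))) ↔
          rk' (plc L r j c, x' c) < rk' (plc L r j c, y' c)) ∧
        (T (f c (Fin.last (2 * m + 1))) < T (f c 0) ↔
          ¬ rk' (plc L r j c, x' c) < rk' (plc L r j c, y' c))) := by
    intro c
    by_cases h : x c = y c
    · refine ⟨fun _ => 0, fun i i' _ => ?_, fun h' => absurd h h'⟩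
      rw [hf1 c h, hf1 c h]
    · obtain ⟨T, h1, h2⟩ := rk1 m hm (f c) (hf2 c h).1
        (rk (plc L r j c, x c) < rk (plc L r j c, y c))
        (rk' (plc L r j c, x' c) < rk' (plc L r j c, y' c))
      exact ⟨T, h1, fun _ => h2⟩
  choose T hT1 hT2 using hT
  obtain ⟨rep, hrep⟩ : ∃ rep : Pl L → Fin 6, ∀ c, plc L r j (rep (plc L r j c)) = plc L r j c := by
    refine ⟨fun P => if h : ∃ c, plc L r j c = P then h.choose else 0, fun c => ?_⟩
    dsimp only
    have h : ∃ c', plc L r j c' = plc L r j c := ⟨c, rfl⟩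
    rw [dif_pos h]
    exact h.choose_spec
  have hrE : ∀ c, Ent r j (rep (plc L r j c)) c := fun c => (hp.eq _ _).1 (hrep c)
  obtain ⟨rs, hr1, hr2⟩ := glue (fun P => T (rep P))
  have hT1' : ∀ c i i', T (rep (plc L r j c)) (f c i) = T (rep (plc L r j c)) (f c i') →
      f c i = f c i' := by
    intro c i i' h
    have h1 := hT1 (rep (plc L r j c)) i i'
    rw [hfE _ _ (hrE c)] at h1
    exact h1 h
  have hT2' : ∀ c, x c ≠ y c →
        (∀ i i' : Fin (2 * m + 2), (i' : ℕ) = i + 1 →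
        ((i : ℕ) % 2 = 0 → (rs (plc L r j c, f c i) < rs (plc L r j c, f c i') ↔
            rk (plc L r j c, x c) < rk (plc L r j c, y c)) ∧
          (rs (plc L r j c, f c i') < rs (plc L r j c, f c i) ↔
            ¬ rk (plc L r j c, x c) < rk (plc L r j c, y c))) ∧
        ((i : ℕ) % 2 = 1 → (rs (plc L r j c, f c i') < rs (plc L r j c, f c i) ↔
            rk (plc L r j c, x c) < rk (plc L r j c, y c)) ∧
          (rs (plc L r j c, f c i) < rs (plc L r j c, f c i') ↔
            ¬ rk (plc L r j c, x c) < rk (plc L r j c, y c)))) ∧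
        (rs (plc L r j c, f c 0) < rs (plc L r j c, f c (Fin.last (2 * m + 1))) ↔
          rk' (plc L r j c, x' c) < rk' (plc L r j c, y' c)) ∧
        (rs (plc L r j c, f c (Fin.last (2 * m + 1))) < rs (plc L r j c, f c 0) ↔
          ¬ rk' (plc L r j c, x' c) < rk' (plc L r j c, y' c)) := by
    intro c h
    have h1 := hT2 (rep (plc L r j c))
    rw [hfE _ _ (hrE c), hx.1 _ _ (hrE c), hy.1 _ _ (hrE c), hx'.1 _ _ (hrE c),
      hy'.1 _ _ (hrE c), hrep c] at h1
    simp only [hr2]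
    exact h1 h
  have hRk : RkI rs (fun q : Fin (2 * m + 2) × Fin 6 => (plc L r j q.2, f q.2 q.1)) := by
    rintro ⟨w, c⟩ ⟨w', c'⟩ h
    obtain ⟨h1, h2⟩ := hr1 _ _ _ _ h
    have h3 : Ent r j c c' := (hp.eq _ _).1 h1
    dsimp only at h1 h2 ⊢
    rw [← h1, ← hfE _ _ h3] at h2
    rw [← h1, ← hfE _ _ h3, hT1' c w w' h2]
  obtain ⟨ψ, -, hψ⟩ := hB r j hj (Fin (2 * m + 2) → V) (Fin (2 * m + 2)) f (fun g i => g i) rs
    hfE hRk
  have hne : ∀ c, x c ≠ y c → (¬ rk (plc L r j c, x c) < rk (plc L r j c, y c) ↔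
      rk (plc L r j c, y c) < rk (plc L r j c, x c)) := by
    intro c h
    have h1 : rk (plc L r j c, x c) ≠ rk (plc L r j c, y c) := by
      intro h2
      exact h (congrArg Prod.snd (hrk (Sum.inl c) (Sum.inr c) h2))
    omega
  have hne' : ∀ c, x c ≠ y c → (¬ rk' (plc L r j c, x' c) < rk' (plc L r j c, y' c) ↔
      rk' (plc L r j c, y' c) < rk' (plc L r j c, x' c)) := by
    intro c h
    have h1 : rk' (plc L r j c, x' c) ≠ rk' (plc L r j c, y' c) := by
      intro h2
      exact h ((hA c).2 (congrArg Prod.snd (hrk' (Sum.inl c) (Sum.inr c) h2)))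
    omega
  have hfs : ∀ i, Sat r j (fun c => f c i) := fun i c c' h => congrFun (hfE c c' h) i
  have hstep : ∀ i i' : Fin (2 * m + 2), (i' : ℕ) = i + 1 → ψ i = ψ i' := by
    intro i i' hii
    rcases Nat.mod_two_eq_zero_or_one i with he | he
    · have h1 : kv 𝔹 rs (Sum.elim (blk L r j (fun c => f c i)) (blk L r j (fun c => f c i'))) =
          kv 𝔹 rk (Sum.elim (blk L r j x) (blk L r j y)) := by
        refine kv_pair hp (hfs i) (hfs i') hx.1 hy.1 rs rk ?_ ?_ ?_
        · intro c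
          by_cases h : x c = y c
          · rw [hf1 c h, hf1 c h, ← h]
          · exact ((hf2 c h).2.1 i i' hii).1 he
        · intro c
          by_cases h : x c = y c
          · rw [hf1 c h, hf1 c h, ← h]
            exact iff_of_false (lt_irrefl _) (lt_irrefl _)
          · exact (((hT2' c h).1 i i' hii).1 he).1
        · intro c
          by_cases h : x c = y c
          · rw [hf1 c h, hf1 c h, ← h]
            exact iff_of_false (lt_irrefl _) (lt_irrefl _)
          · exact (((hT2' c h).1 i i' hii).1 he).2.trans (hne c h)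
      have h2 := hψ i i'
      have h3 : (col2 𝔹 (ψ i) (ψ i')).1 = (Fv 𝔹 Φ rk (blk L r j x) (blk L r j y)).1 := by
        rw [h2]
        show (Φ _).1 = (Φ _).1
        rw [h1]
      have h4 : (col2 𝔹 (ψ i) (ψ i')).1 := by
        rw [h3]
        exact hv
      exact h4
    · have h1 : kv 𝔹 rs (Sum.elim (blk L r j (fun c => f c i')) (blk L r j (fun c => f c i))) =
          kv 𝔹 rk (Sum.elim (blk L r j x) (blk L r j y)) := by
        refine kv_pair hp (hfs i') (hfs i) hx.1 hy.1 rs rk ?_ ?_ ?_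
        · intro c
          by_cases h : x c = y c
          · rw [hf1 c h, hf1 c h, ← h]
          · exact ((hf2 c h).2.1 i i' hii).2 he
        · intro c
          by_cases h : x c = y c
          · rw [hf1 c h, hf1 c h, ← h]
            exact iff_of_false (lt_irrefl _) (lt_irrefl _)
          · exact (((hT2' c h).1 i i' hii).2 he).1
        · intro c
          by_cases h : x c = y c
          · rw [hf1 c h, hf1 c h, ← h]
            exact iff_of_false (lt_irrefl _) (lt_irrefl _)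
          · exact (((hT2' c h).1 i i' hii).2 he).2.trans (hne c h)
      have h2 := hψ i' i
      have h3 : (col2 𝔹 (ψ i') (ψ i)).1 = (Fv 𝔹 Φ rk (blk L r j x) (blk L r j y)).1 := by
        rw [h2]
        show (Φ _).1 = (Φ _).1
        rw [h1]
      have h4 : (col2 𝔹 (ψ i') (ψ i)).1 := by
        rw [h3]
        exact hv
      have h5 : ψ i' = ψ i := h4
      exact h5.symm
  have hall : ∀ k (hk : k < 2 * m + 2), ψ 0 = ψ ⟨k, hk⟩ := by
    intro k
    induction k with
    | zero => intro hk; rfl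
    | succ k ih =>
      intro hk
      exact (ih (by omega)).trans (hstep ⟨k, by omega⟩ ⟨k + 1, hk⟩ rfl)
  have hlast : ψ 0 = ψ (Fin.last (2 * m + 1)) := hall (2 * m + 1) (by omega)
  have h1 : kv 𝔹 rs (Sum.elim (blk L r j (fun c => f c 0))
      (blk L r j (fun c => f c (Fin.last (2 * m + 1))))) =
        kv 𝔹 rk' (Sum.elim (blk L r j x') (blk L r j y')) := by
    refine kv_pair hp (hfs _) (hfs _) hx'.1 hy'.1 rs rk' ?_ ?_ ?_
    · intro c
      by_cases h : x c = y c
      · have h6 : x' c = y' c := (hA c).1 h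
        rw [hf1 c h, hf1 c h, ← h6]
        have h7 : ∀ v : V, (![v, v] : Fin 2 → V) = fun _ => v := by
          intro v
          funext i
          fin_cases i <;> rfl
        rw [h7, h7]
        have h8 : ty 𝔹 (x c) = ty 𝔹 (x' c) := (hx.2 c).trans (hx'.2 c).symm
        refine Prod.ext ?_ ?_
        · funext a b
          exact propext (iff_of_true rfl rfl)
        · funext l z
          exact congrFun h8 l
      · exact (hf2 c h).2.2
    · intro c
      by_cases h : x c = y c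
      · rw [hf1 c h, hf1 c h, ← (hA c).1 h]
        exact iff_of_false (lt_irrefl _) (lt_irrefl _)
      · exact (hT2' c h).2.1
    · intro c
      by_cases h : x c = y c
      · rw [hf1 c h, hf1 c h, ← (hA c).1 h]
        exact iff_of_false (lt_irrefl _) (lt_irrefl _)
      · exact (hT2' c h).2.2.trans (hne' c h)
  have h2 := hψ 0 (Fin.last (2 * m + 1))
  have h3 : (col2 𝔹 (ψ 0) (ψ (Fin.last (2 * m + 1)))).1 =
      (Fv 𝔹 Φ rk' (blk L r j x') (blk L r j y')).1 := by
    rw [h2]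
    show (Φ _).1 = (Φ _).1
    rw [h1]
  rw [← h3]
  exact hlast

end Pool.Agent.H29.KR
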